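import Pool.Agent.Helper38.IA.St

/-!
# Project IA (MP_953b28_co), module M7 of part M: `StM6 → StMAT`
-/

set_option autoImplicit false

namespace Pool.Agent.Helper75.IA38

open Finset Pool.Agent.Helper93.IA Pool.Agent.Helper38.IA

private theorem ph_le {X ι : Type} [Fintype X] [Fintype ι] [DecidableEq X] [DecidableEq ι]
    (c : ℝ) (hc : 1 ≤ c) (P : ι → Finset X) (D : ℕ)
    (hD : ∀ x, (univ.filter fun i => x ∈ P i).card ≤ D) (B : ι → X → ℕ) (hB : ∀ i x, B i x = 0) :
    Ph c P ∅ B ≤ (Fintype.card ι : ℝ) * (Fintype.card X : ℝ) * c ^ D := by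
  have hc0 : 0 ≤ c := le_trans zero_le_one hc
  unfold Ph
  have h1 : ∀ i ∈ univ \ (∅ : Finset ι), ∑ x ∈ P i, (2 : ℝ) ^ B i x *
      c ^ ((univ \ (∅ : Finset ι)).filter fun j => j ≠ i ∧ x ∈ P j).card ≤
      (Fintype.card X : ℝ) * c ^ D := by
    intro i _
    have h2 : ∀ x ∈ P i, (2 : ℝ) ^ B i x *
        c ^ ((univ \ (∅ : Finset ι)).filter fun j => j ≠ i ∧ x ∈ P j).card ≤ c ^ D := by
      intro x _
      rw [hB i x, pow_zero, one_mul]
      refine pow_le_pow_right₀ hc ?_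
      refine le_trans (Finset.card_le_card ?_) (hD x)
      intro j hj
      rw [Finset.mem_filter] at hj ⊢
      exact ⟨Finset.mem_univ _, hj.2.2⟩
    calc ∑ x ∈ P i, (2 : ℝ) ^ B i x *
          c ^ ((univ \ (∅ : Finset ι)).filter fun j => j ≠ i ∧ x ∈ P j).card
        ≤ ∑ _x ∈ P i, c ^ D := Finset.sum_le_sum h2
      _ = ((P i).card : ℝ) * c ^ D := by rw [Finset.sum_const, nsmul_eq_mul]
      _ ≤ (Fintype.card X : ℝ) * c ^ D := by
          refine mul_le_mul_of_nonneg_right ?_ (pow_nonneg hc0 _)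
          exact_mod_cast Finset.card_le_univ _
  refine (Finset.sum_le_sum h1).trans ?_
  rw [Finset.sum_const, nsmul_eq_mul, ← mul_assoc]
  have h3 : ((univ \ (∅ : Finset ι)).card : ℝ) = (Fintype.card ι : ℝ) := by
    rw [Finset.sdiff_empty, Finset.card_univ]
  rw [h3]

theorem hM7 : StM6 → StMAT := by
  intro hM6 X Y ι _ _ _ _ _ _ H P Q t b R D μ hR hcard hbig htx hty hPP hQQ hDx hDy hlt
  rcases isEmpty_or_nonempty ι with he | hne
  · exact ⟨fun i => (he.false i).elim, fun i => (he.false i).elim, fun i => (he.false i).elim,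
      fun i => (he.false i).elim⟩
  obtain ⟨i1⟩ := hne
  have hYne : Nonempty Y := by
    have h1 : 0 < (Q i1).card := by
      have := hbig i1
      rw [hcard i1] at this
      omega
    exact ⟨(Finset.card_pos.1 h1).choose⟩
  obtain ⟨y0⟩ := hYne
  have hc : 1 ≤ 1 + (μ : ℝ) / R := by
    have : 0 ≤ (μ : ℝ) / R := by positivity
    linarith
  have key : ∀ S : Finset ι, ∃ M : ι → X → Y, Good H P Q S M ∧
      Ph (1 + (μ : ℝ) / R) P S (BX P Q M S) + Ph (1 + (μ : ℝ) / R) Q S (BY P M S) < 2 ^ b := by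
    intro S
    induction S using Finset.induction_on with
    | empty =>
      refine ⟨fun _ _ => y0, ⟨by simp, by simp, by simp⟩, ?_⟩
      have h1 := ph_le (1 + (μ : ℝ) / R) hc P D hDx (BX P Q (fun _ _ => y0) ∅)
        (by intro i x; simp [BX])
      have h2 := ph_le (1 + (μ : ℝ) / R) hc Q D hDy (BY P (fun _ _ => y0) ∅)
        (by intro i x; simp [BY])
      refine lt_of_le_of_lt (add_le_add h1 h2) ?_
      refine lt_of_le_of_lt (le_of_eq ?_) hlt
      ring
    | insert i0 S hi ih =>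
      obtain ⟨M, hG, hp⟩ := ih
      obtain ⟨N, hG', hp'⟩ :=
        hM6 X Y ι H P Q t b R μ S i0 M hR hcard hbig htx hty hPP hQQ hi hG hp
      exact ⟨_, hG', lt_of_le_of_lt hp' hp⟩
  obtain ⟨M, hG, _⟩ := key univ
  exact ⟨M, fun i => hG.bij i (Finset.mem_univ _), fun i => hG.inH i (Finset.mem_univ _),
    fun i j => hG.dis i (Finset.mem_univ _) j (Finset.mem_univ _)⟩

end Pool.Agent.Helper75.IA38
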